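import Pool.Agent.H619R2.HO.SerP

/-!
ROOM HO (helper619): identity ID1.
-/

set_option autoImplicit false

namespace H619HO

open H902HO

theorem id1a : (serP wP qP vP (Poly.X 103 * sqP (Poly.X 17))).a = Poly.O := by decide +kernel

theorem id1b : (serP wP qP vP (Poly.X 103 * sqP (Poly.X 17))).b = Poly.O := by decide +kernel

/-- TASK ID1 -/
theorem ID1 : St_ID1 := by
  intro w q v lam c s o1 o2 r k g1 g2 g3 g4 e h
  have h' : rho w q v lam c s o1 o2 r k g1 g2 g3 g4 e 3 ^ 2
      + rho w q v lam c s o1 o2 r k g1 g2 g3 g4 e 2 ^ 2 = 1 := h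
  have hl : (Poly.X 103 * sqP (Poly.X 17)).val (rho w q v lam c s o1 o2 r k g1 g2 g3 g4 e)
      = lam * e ^ 2 := by
    unfold sqP
    rw [Poly.val_mul _ h', Poly.val_mul _ h', Poly.val_X _ 103 (by norm_num),
      Poly.val_X _ 17 (by norm_num)]
    show lam * (e * e) = lam * e ^ 2
    ring
  have key := ser_eq w q v lam c s o1 o2 r k g1 g2 g3 g4 e h wP _ lam hl
  rw [rho_w] at key
  rw [← key]
  constructor
  · rw [sv_a, id1a, Poly.val_O]
  · rw [sv_b, id1b, Poly.val_O]

end H619HO
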