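import Pool.Agent.H619R2.HO.SerP

/-!
ROOM HO (helper619): identity ID2.
-/

set_option autoImplicit false

namespace H619HO

open H902HO

/-- right-hand side of ID2 -/
def rhs2 (c s o1 o2 r k g1 g2 g3 g4 E : Poly) : Poly :=
  Poly.C 4 * sqP k + Poly.C 4 * sqP r + sqP (o1 + k - r * c) + sqP (o2 - r * s)
    + Poly.C 3 * (sqP (o2 + g2) + sqP (o1 * s - o2 * c + c * E - g4)
      + sqP (Poly.C 3 * (k - r * c) + c * (o1 * c + o2 * s) - c * s * E + g4 * s)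
      + sqP (Poly.C (-3) * r * s + c * (o1 * s - o2 * c) - sqP s * E - g2 - g4 * c))
    + Poly.C 3 * (sqP g1 + sqP g3 + sqP (g1 + g3)) + sqP E

theorem id2c : (serP one3P qP vP Poly.O).c = rhs2 (Poly.X 3) (Poly.X 2) (Poly.mX 2 5)
    (Poly.mX 2 7) (Poly.mX 2 11) (Poly.mX 2 13) (Poly.X 19) (Poly.X 23) (Poly.X 29) (Poly.X 31)
    (Poly.X 17 * Poly.X 43) := by decide +kernel

/-- TASK ID2 -/
theorem ID2 : St_ID2 := by
  intro q v c s o1 o2 r k g1 g2 g3 g4 e h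
  have h' : rho one3 q v 0 c s o1 o2 r k g1 g2 g3 g4 e 3 ^ 2
      + rho one3 q v 0 c s o1 o2 r k g1 g2 g3 g4 e 2 ^ 2 = 1 := h
  have hl : Poly.O.val (rho one3 q v 0 c s o1 o2 r k g1 g2 g3 g4 e) = 0 * e ^ 2 := by
    rw [Poly.val_O, zero_mul]
  have key := ser_eq one3 q v 0 c s o1 o2 r k g1 g2 g3 g4 e h one3P _ 0 hl
  rw [rho_one] at key
  rw [← key]
  rw [sv_c, id2c]
  simp only [rhs2, sqP, Poly.val_add, Poly.val_sub, Poly.val_mul _ h', Poly.val_C,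
    Poly.val_X _ 3 (by norm_num), Poly.val_X _ 2 (by norm_num),
    Poly.val_mX _ 2 5 (by norm_num), Poly.val_mX _ 2 7 (by norm_num),
    Poly.val_mX _ 2 11 (by norm_num), Poly.val_mX _ 2 13 (by norm_num),
    Poly.val_X _ 17 (by norm_num), Poly.val_X _ 19 (by norm_num), Poly.val_X _ 23 (by norm_num),
    Poly.val_X _ 29 (by norm_num), Poly.val_X _ 31 (by norm_num), Poly.val_X _ 43 (by norm_num)]
  have e2 : rho one3 q v 0 c s o1 o2 r k g1 g2 g3 g4 e 2 = s := rfl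
  have e3 : rho one3 q v 0 c s o1 o2 r k g1 g2 g3 g4 e 3 = c := rfl
  have e5 : rho one3 q v 0 c s o1 o2 r k g1 g2 g3 g4 e 5 = o1 / 2 := rfl
  have e7 : rho one3 q v 0 c s o1 o2 r k g1 g2 g3 g4 e 7 = o2 / 2 := rfl
  have e11 : rho one3 q v 0 c s o1 o2 r k g1 g2 g3 g4 e 11 = r / 2 := rfl
  have e13 : rho one3 q v 0 c s o1 o2 r k g1 g2 g3 g4 e 13 = k / 2 := rfl
  have e17 : rho one3 q v 0 c s o1 o2 r k g1 g2 g3 g4 e 17 = e := rfl
  have e19 : rho one3 q v 0 c s o1 o2 r k g1 g2 g3 g4 e 19 = g1 := rfl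
  have e23 : rho one3 q v 0 c s o1 o2 r k g1 g2 g3 g4 e 23 = g2 := rfl
  have e29 : rho one3 q v 0 c s o1 o2 r k g1 g2 g3 g4 e 29 = g3 := rfl
  have e31 : rho one3 q v 0 c s o1 o2 r k g1 g2 g3 g4 e 31 = g4 := rfl
  have e43 : rho one3 q v 0 c s o1 o2 r k g1 g2 g3 g4 e 43 = v.z := rfl
  rw [e2, e3, e5, e7, e11, e13, e17, e19, e23, e29, e31, e43]
  push_cast
  ring

end H619HO
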