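import Pool.Agent.H619R2.HO.SerP

/-!
ROOM HO (helper619): identity ID3.
-/

set_option autoImplicit false

namespace H619HO

open H902HO

/-- symbolic `hX` -/
def hXP (w q : Sym Poly) : Poly :=
  w.yz * w.zz * q.yz - sqP w.yz * q.zz + sqP w.yz * q.xx + w.xz * w.zz * q.xz
    - Poly.C 2 * w.xz * w.yz * q.xy - w.xz * w.yy * q.xz - sqP w.xz * q.zz + sqP w.xz * q.yy
    + w.xy * w.yz * q.xz + w.xy * w.xz * q.yz - w.xx * w.yz * q.yz

theorem val_hXP (ρ : ℕ → ℝ) (h : ρ 3 ^ 2 + ρ 2 ^ 2 = 1) (w q : Sym Poly) :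
    (hXP w q).val ρ = hX (w.map (Poly.val ρ)) (q.map (Poly.val ρ)) := by
  simp only [hXP, hX, sqP, H902HO.Sym.map, Poly.val_add, Poly.val_sub, Poly.val_mul _ h, Poly.val_C]
  push_cast
  ring

theorem id3c : (serP wP qP vP (Poly.X 103 * sqP (Poly.X 17))).c =
    (serP wP qP vP Poly.O).c + Poly.C 4 * (Poly.X 103 * sqP (Poly.X 17)) * hXP wP qP := by
  decide +kernel

/-- TASK ID3 -/
theorem ID3 : St_ID3 := by
  intro w q v lam c s o1 o2 r k g1 g2 g3 g4 e h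
  have h' : rho w q v lam c s o1 o2 r k g1 g2 g3 g4 e 3 ^ 2
      + rho w q v lam c s o1 o2 r k g1 g2 g3 g4 e 2 ^ 2 = 1 := h
  have hl : (Poly.X 103 * sqP (Poly.X 17)).val (rho w q v lam c s o1 o2 r k g1 g2 g3 g4 e)
      = lam * e ^ 2 := by
    unfold sqP
    rw [Poly.val_mul _ h', Poly.val_mul _ h', Poly.val_X _ 103 (by norm_num),
      Poly.val_X _ 17 (by norm_num)]
    show lam * (e * e) = lam * e ^ 2
    ring
  have hl0 : Poly.O.val (rho w q v lam c s o1 o2 r k g1 g2 g3 g4 e) = 0 * e ^ 2 := by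
    rw [Poly.val_O, zero_mul]
  have key := ser_eq w q v lam c s o1 o2 r k g1 g2 g3 g4 e h wP _ lam hl
  have key0 := ser_eq w q v lam c s o1 o2 r k g1 g2 g3 g4 e h wP _ 0 hl0
  rw [rho_w] at key key0
  rw [← key, ← key0]
  rw [sv_c, sv_c, id3c, Poly.val_add, Poly.val_mul _ h', Poly.val_mul _ h', hl, val_hXP _ h', rho_w, rho_q,
    Poly.val_C]
  push_cast
  ring

end H619HO
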