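import Pool.Agent.H605R2.HO.LOC

/-!
ROOM HO (helper619): kernel reflection.  Polynomials with integer coefficients as sorted lists of
pairs (monomial code, coefficient); the code of a monomial is a product of primes (a natural
number), so that monomials multiply and compare as natural numbers.  The primes `2` and `3` stand
for `s` and `c` with `s² = 1 - c²`.
-/

set_option autoImplicit false

namespace H619HO

open H902HO

/-! ### evaluation of monomials -/

/-- value of a monomial code -/
noncomputable def V (ρ : ℕ → ℝ) (n : ℕ) : ℝ :=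
  if n = 0 then 0 else n.factorization.prod fun p k => ρ p ^ k

theorem V_mul (ρ : ℕ → ℝ) (a b : ℕ) : V ρ (a * b) = V ρ a * V ρ b := by
  unfold V
  by_cases ha : a = 0
  · simp [ha]
  by_cases hb : b = 0
  · simp [hb]
  rw [if_neg ha, if_neg hb, if_neg (Nat.mul_ne_zero ha hb), Nat.factorization_mul ha hb,
    Finsupp.prod_add_index' (fun p => pow_zero _) (fun p k l => pow_add _ _ _)]

theorem V_one (ρ : ℕ → ℝ) : V ρ 1 = 1 := by simp [V]

theorem V_prime (ρ : ℕ → ℝ) (p : ℕ) (hp : p.Prime) : V ρ p = ρ p := by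
  unfold V
  rw [if_neg hp.ne_zero, hp.factorization, Finsupp.prod_single_index]
  · exact pow_one _
  · exact pow_zero _

/-! ### lists -/

/-- evaluation of a list -/
noncomputable def ev (ρ : ℕ → ℝ) : List (ℕ × ℤ) → ℝ
  | [] => 0
  | t :: l => (t.2 : ℝ) * V ρ t.1 + ev ρ l

/-- merging of sorted lists -/
def mrg : ℕ → List (ℕ × ℤ) → List (ℕ × ℤ) → List (ℕ × ℤ)
  | 0, p, q => p ++ q
  | _ + 1, [], q => q
  | _ + 1, t :: p, [] => t :: p
  | n + 1, (a, x) :: p, (b, y) :: q =>
    bif Nat.blt a b then (a, x) :: mrg n p ((b, y) :: q)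
    else bif Nat.blt b a then (b, y) :: mrg n ((a, x) :: p) q
    else bif decide (x + y = 0) then mrg n p q
    else (a, x + y) :: mrg n p q

theorem blt_iff (a b : ℕ) : Nat.blt a b = true ↔ a < b := by
  rw [Nat.blt_eq]

theorem ev_append (ρ : ℕ → ℝ) (p q : List (ℕ × ℤ)) : ev ρ (p ++ q) = ev ρ p + ev ρ q := by
  induction p with
  | nil => simp [ev]
  | cons t p ih => simp [ev, ih, add_assoc]

theorem ev_mrg (ρ : ℕ → ℝ) (n : ℕ) (p q : List (ℕ × ℤ)) :
    ev ρ (mrg n p q) = ev ρ p + ev ρ q := by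
  induction n generalizing p q with
  | zero => exact ev_append ρ p q
  | succ n ih =>
    match p, q with
    | [], q => simp [mrg, ev]
    | t :: p, [] => simp [mrg, ev]
    | (a, x) :: p, (b, y) :: q =>
      unfold mrg
      cases h1 : Nat.blt a b with
      | true =>
        simp only [cond_true, ev, ih]
        ring
      | false =>
        cases h2 : Nat.blt b a with
        | true =>
          simp only [cond_true, cond_false, ev, ih]
          ring
        | false =>
          have hab : a = b := by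
            have h1' : ¬ a < b := fun h => by rw [(blt_iff a b).2 h] at h1; cases h1
            have h2' : ¬ b < a := fun h => by rw [(blt_iff b a).2 h] at h2; cases h2
            omega
          subst hab
          by_cases h3 : x + y = 0
          · simp only [cond_true, cond_false, h3, decide_true, ev, ih]
            have : (x : ℝ) + y = 0 := by exact_mod_cast h3
            have : (y : ℝ) = - x := by linarith
            rw [this]; ring
          · simp only [cond_false, h3, decide_false, ev, ih]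
            push_cast
            ring

/-- multiplication by a term -/
def mulT (a : ℕ) (x : ℤ) (q : List (ℕ × ℤ)) : List (ℕ × ℤ) := q.map fun t => (a * t.1, x * t.2)

theorem ev_mulT (ρ : ℕ → ℝ) (a : ℕ) (x : ℤ) (q : List (ℕ × ℤ)) :
    ev ρ (mulT a x q) = (x : ℝ) * V ρ a * ev ρ q := by
  induction q with
  | nil => simp [mulT, ev]
  | cons t q ih =>
    have : mulT a x (t :: q) = (a * t.1, x * t.2) :: mulT a x q := rfl
    rw [this]
    simp only [ev, ih, V_mul]
    push_cast
    ring

/-- fuel -/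
def fuel : ℕ := 1000000

/-- product of lists -/
def mulL (p q : List (ℕ × ℤ)) : List (ℕ × ℤ) :=
  p.foldr (fun t acc => mrg fuel (mulT t.1 t.2 q) acc) []

theorem ev_mulL (ρ : ℕ → ℝ) (p q : List (ℕ × ℤ)) : ev ρ (mulL p q) = ev ρ p * ev ρ q := by
  induction p with
  | nil => simp [mulL, ev]
  | cons t p ih =>
    have : mulL (t :: p) q = mrg fuel (mulT t.1 t.2 q) (mulL p q) := rfl
    rw [this, ev_mrg, ev_mulT, ih]
    simp only [ev]
    ring

/-- negation -/
def negL (q : List (ℕ × ℤ)) : List (ℕ × ℤ) := q.map fun t => (t.1, -t.2)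

theorem ev_negL (ρ : ℕ → ℝ) (q : List (ℕ × ℤ)) : ev ρ (negL q) = - ev ρ q := by
  induction q with
  | nil => simp [negL, ev]
  | cons t q ih =>
    have : negL (t :: q) = (t.1, -t.2) :: negL q := rfl
    rw [this]
    simp only [ev, ih]
    push_cast
    ring

/-- terms not divisible by `s²` -/
def keep (l : List (ℕ × ℤ)) : List (ℕ × ℤ) := l.filter fun t => Nat.blt 0 (t.1 % 4)

/-- the quotients by `s²` of the divisible terms -/
def quo (l : List (ℕ × ℤ)) : List (ℕ × ℤ) :=
  l.foldr (fun t acc => bif Nat.blt 0 (t.1 % 4) then acc else (t.1 / 4, t.2) :: acc) []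

/-- reduction `s² = 1 - c²` -/
def red (l : List (ℕ × ℤ)) : List (ℕ × ℤ) :=
  mrg fuel (keep l) (mrg fuel (quo l) (mulT 9 (-1) (quo l)))

theorem ev_red (ρ : ℕ → ℝ) (h : ρ 3 ^ 2 + ρ 2 ^ 2 = 1) (l : List (ℕ × ℤ)) :
    ev ρ (red l) = ev ρ l := by
  have h9 : V ρ 9 = ρ 3 ^ 2 := by
    rw [show (9 : ℕ) = 3 * 3 from rfl, V_mul, V_prime ρ 3 Nat.prime_three, sq]
  have h4 : V ρ 4 = ρ 2 ^ 2 := by
    rw [show (4 : ℕ) = 2 * 2 from rfl, V_mul, V_prime ρ 2 Nat.prime_two, sq]
  have key : ev ρ (keep l) + V ρ 4 * ev ρ (quo l) = ev ρ l := by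
    induction l with
    | nil => simp [keep, quo, ev]
    | cons t l ih =>
      by_cases ht : 0 < t.1 % 4
      · have hb : Nat.blt 0 (t.1 % 4) = true := (blt_iff _ _).2 ht
        have e1 : keep (t :: l) = t :: keep l := by
          unfold keep
          rw [List.filter_cons_of_pos]
          simpa using hb
        have e2 : quo (t :: l) = quo l := by
          unfold quo
          rw [List.foldr_cons, hb]
          rfl
        rw [e1, e2]
        simp only [ev]
        linarith
      · have hb : Nat.blt 0 (t.1 % 4) = false := by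
          cases hh : Nat.blt 0 (t.1 % 4) with
          | false => rfl
          | true => exact absurd ((blt_iff _ _).1 hh) ht
        have e1 : keep (t :: l) = keep l := by
          unfold keep
          rw [List.filter_cons_of_neg]
          simp [hb]
        have e2 : quo (t :: l) = (t.1 / 4, t.2) :: quo l := by
          unfold quo
          rw [List.foldr_cons, hb]
          rfl
        have e3 : t.1 = 4 * (t.1 / 4) := by omega
        have e4 : V ρ t.1 = V ρ 4 * V ρ (t.1 / 4) := by
          conv_lhs => rw [e3]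
          rw [V_mul]
        rw [e1, e2]
        simp only [ev]
        rw [e4, ← ih]
        ring
  unfold red
  rw [ev_mrg, ev_mrg, ev_mulT, h9, ← key, h4]
  push_cast
  have : ρ 2 ^ 2 = 1 - ρ 3 ^ 2 := by linarith
  rw [this]
  ring

/-! ### the type of polynomials -/

/-- polynomials -/
structure Poly where
  l : List (ℕ × ℤ)
deriving DecidableEq

namespace Poly

instance : Add Poly := ⟨fun p q => ⟨mrg fuel p.l q.l⟩⟩
instance : Neg Poly := ⟨fun p => ⟨negL p.l⟩⟩
instance : Sub Poly := ⟨fun p q => ⟨mrg fuel p.l (negL q.l)⟩⟩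
instance : Mul Poly := ⟨fun p q => ⟨red (mulL p.l q.l)⟩⟩

/-- evaluation -/
noncomputable def val (ρ : ℕ → ℝ) (p : Poly) : ℝ := ev ρ p.l

variable (ρ : ℕ → ℝ)

theorem val_add (p q : Poly) : (p + q).val ρ = p.val ρ + q.val ρ := ev_mrg ρ _ _ _
theorem val_neg (p : Poly) : (-p).val ρ = - p.val ρ := ev_negL ρ _
theorem val_sub (p q : Poly) : (p - q).val ρ = p.val ρ - q.val ρ := by
  have : (p - q).val ρ = ev ρ (mrg fuel p.l (negL q.l)) := rfl
  rw [this, ev_mrg, ev_negL]
  rfl
theorem val_mul (h : ρ 3 ^ 2 + ρ 2 ^ 2 = 1) (p q : Poly) :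
    (p * q).val ρ = p.val ρ * q.val ρ := by
  have : (p * q).val ρ = ev ρ (red (mulL p.l q.l)) := rfl
  rw [this, ev_red ρ h, ev_mulL]
  rfl

/-- integer constants -/
def C (n : ℤ) : Poly := ⟨[(1, n)]⟩
/-- zero -/
def O : Poly := ⟨[]⟩
/-- variables (prime numbers) -/
def X (p : ℕ) : Poly := ⟨[(p, 1)]⟩
/-- multiples of variables -/
def mX (n : ℤ) (p : ℕ) : Poly := ⟨[(p, n)]⟩

theorem val_C (n : ℤ) : (C n).val ρ = n := by simp [C, val, ev, V_one]
theorem val_O : O.val ρ = 0 := by simp [O, val, ev]
theorem val_X (p : ℕ) (hp : p.Prime) : (X p).val ρ = ρ p := by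
  simp [X, val, ev, V_prime ρ p hp]
theorem val_mX (n : ℤ) (p : ℕ) (hp : p.Prime) : (mX n p).val ρ = n * ρ p := by
  simp [mX, val, ev, V_prime ρ p hp]

end Poly

/-! ### series over polynomials -/

/-- the evaluation of series -/
noncomputable def sv (ρ : ℕ → ℝ) (p : S3 Poly) : S3 ℝ := S3.map (Poly.val ρ) p

section
variable (ρ : ℕ → ℝ)

theorem sv_add (p q : S3 Poly) : sv ρ (p + q) = sv ρ p + sv ρ q := by
  ext
  · exact Poly.val_add ρ _ _
  · exact Poly.val_add ρ _ _
  · exact Poly.val_add ρ _ _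

theorem sv_sub (p q : S3 Poly) : sv ρ (p - q) = sv ρ p - sv ρ q := by
  ext
  · exact Poly.val_sub ρ _ _
  · exact Poly.val_sub ρ _ _
  · exact Poly.val_sub ρ _ _

theorem sv_neg (p : S3 Poly) : sv ρ (-p) = -sv ρ p := by
  ext
  · exact Poly.val_neg ρ _
  · exact Poly.val_neg ρ _
  · exact Poly.val_neg ρ _

theorem sv_mul (h : ρ 3 ^ 2 + ρ 2 ^ 2 = 1) (p q : S3 Poly) :
    sv ρ (p * q) = sv ρ p * sv ρ q := by
  ext
  · show (p.a * q.a).val ρ = _
    rw [Poly.val_mul ρ h]
    rfl
  · show (p.a * q.b + p.b * q.a).val ρ = _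
    rw [Poly.val_add, Poly.val_mul ρ h, Poly.val_mul ρ h]
    rfl
  · show (p.a * q.c + p.b * q.b + p.c * q.a).val ρ = _
    rw [Poly.val_add, Poly.val_add, Poly.val_mul ρ h, Poly.val_mul ρ h, Poly.val_mul ρ h]
    rfl

end

end H619HO
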