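import Pool.Agent.H619R2.HO.Poly

/-!
ROOM HO (helper619): the symbolic series of the curvature polynomial in the chart.
Codes: `2 = s`, `3 = c`, `5,7,11,13` = halves of `o1,o2,r,k`, `17 = e`, `19,23,29,31 = g1..g4`,
`37,41,43 = v`, `47,53,59,61,67,71 = w`, `73,79,83,89,97,101 = q`, `103 = lam`.
-/

set_option autoImplicit false

namespace H619HO

open H902HO

/-- constant series -/
def coP (p : Poly) : S3 Poly := ⟨p, Poly.O, Poly.O⟩
/-- linear series -/
def liP (p : Poly) : S3 Poly := ⟨Poly.O, p, Poly.O⟩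
/-- cosine series of twice a variable; `n` is the square of the prime -/
def csP (n : ℕ) : S3 Poly := ⟨Poly.C 1, Poly.O, ⟨[(n, -2)]⟩⟩

/-- the symbolic series -/
def serP (w q : Sym Poly) (v : T Poly) (l : Poly) : S3 Poly :=
  PPc (coP Poly.O) (coP (Poly.C 1)) (w.map coP) (q.map coP) (v.map coP) (liP (Poly.X 17))
    ⟨Poly.O, Poly.O, l⟩
    (coP (Poly.X 3)) (coP (Poly.X 2)) (csP 25) (liP (Poly.mX 2 5)) (csP 49) (liP (Poly.mX 2 7))
    (csP 121) (liP (Poly.mX 2 11)) (csP 169) (liP (Poly.mX 2 13))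
    (liP (Poly.X 19)) (liP (Poly.X 23)) (liP (Poly.X 29)) (liP (Poly.X 31))

/-- the identity matrix -/
def one3P : Sym Poly := ⟨Poly.C 1, Poly.O, Poly.O, Poly.C 1, Poly.O, Poly.C 1⟩
/-- the symbolic vector -/
def vP : T Poly := ⟨Poly.X 37, Poly.X 41, Poly.X 43⟩
/-- the symbolic matrix `w` -/
def wP : Sym Poly := ⟨Poly.X 47, Poly.X 53, Poly.X 59, Poly.X 61, Poly.X 67, Poly.X 71⟩
/-- the symbolic matrix `q` -/
def qP : Sym Poly := ⟨Poly.X 73, Poly.X 79, Poly.X 83, Poly.X 89, Poly.X 97, Poly.X 101⟩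

/-- squares -/
def sqP (p : Poly) : Poly := p * p

section
variable (ρ : ℕ → ℝ)

theorem sv_co (p : Poly) : sv ρ (coP p) = co (p.val ρ) := by
  ext
  · rfl
  · exact Poly.val_O ρ
  · exact Poly.val_O ρ

theorem sv_li (p : Poly) : sv ρ (liP p) = li (p.val ρ) := by
  ext
  · exact Poly.val_O ρ
  · rfl
  · exact Poly.val_O ρ

theorem sv_cs (n p : ℕ) (hp : p.Prime) (hn : n = p * p) :
    sv ρ (csP n) = cs (2 * ρ p) := by
  ext
  · show (Poly.C 1).val ρ = 1
    rw [Poly.val_C]; norm_num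
  · exact Poly.val_O ρ
  · show ev ρ [(n, -2)] = -((2 * ρ p) ^ 2 / 2)
    rw [hn]
    simp only [ev, V_mul, V_prime ρ p hp]
    push_cast
    ring

theorem sv_a (p : S3 Poly) : (sv ρ p).a = p.a.val ρ := rfl
theorem sv_b (p : S3 Poly) : (sv ρ p).b = p.b.val ρ := rfl
theorem sv_c (p : S3 Poly) : (sv ρ p).c = p.c.val ρ := rfl

theorem Sym_map (w : Sym Poly) : (w.map coP).map (sv ρ) = (w.map (Poly.val ρ)).map co := by
  simp only [H902HO.Sym.map, sv_co]

theorem T_map (v : T Poly) : (v.map coP).map (sv ρ) = (v.map (Poly.val ρ)).map co := by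
  simp only [H902HO.T.map, sv_co]

theorem sv_serP (h : ρ 3 ^ 2 + ρ 2 ^ 2 = 1) (w q : Sym Poly) (v : T Poly) (l : Poly) (lam : ℝ)
    (hl : l.val ρ = lam * ρ 17 ^ 2) :
    sv ρ (serP w q v l) = ser (w.map (Poly.val ρ)) (q.map (Poly.val ρ)) (v.map (Poly.val ρ)) lam
      (ρ 3) (ρ 2) (2 * ρ 5) (2 * ρ 7) (2 * ρ 11) (2 * ρ 13) (ρ 19) (ρ 23) (ρ 29) (ρ 31) (ρ 17) := by
  unfold serP ser
  rw [H605HO.map_PPc (sv ρ) (sv_add ρ) (sv_sub ρ) (sv_mul ρ h) (sv_neg ρ)]
  have hl' : sv ρ ⟨Poly.O, Poly.O, l⟩ = ⟨0, 0, lam * ρ 17 ^ 2⟩ := by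
    ext
    · exact Poly.val_O ρ
    · exact Poly.val_O ρ
    · exact hl
  rw [hl', Sym_map, Sym_map, T_map]
  simp only [sv_co, sv_li]
  rw [sv_cs ρ 25 5 (by norm_num) (by norm_num), sv_cs ρ 49 7 (by norm_num) (by norm_num),
    sv_cs ρ 121 11 (by norm_num) (by norm_num), sv_cs ρ 169 13 (by norm_num) (by norm_num),
    Poly.val_O, Poly.val_C, Poly.val_X ρ 3 (by norm_num), Poly.val_X ρ 2 (by norm_num),
    Poly.val_mX ρ 2 5 (by norm_num), Poly.val_mX ρ 2 7 (by norm_num),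
    Poly.val_mX ρ 2 11 (by norm_num), Poly.val_mX ρ 2 13 (by norm_num),
    Poly.val_X ρ 17 (by norm_num), Poly.val_X ρ 19 (by norm_num), Poly.val_X ρ 23 (by norm_num),
    Poly.val_X ρ 29 (by norm_num), Poly.val_X ρ 31 (by norm_num)]
  norm_num

end

/-- the environment -/
noncomputable def rho (w q : Sym ℝ) (v : T ℝ) (lam c s o1 o2 r k g1 g2 g3 g4 e : ℝ) (n : ℕ) : ℝ :=
  if n = 2 then s else if n = 3 then c else if n = 5 then o1 / 2 else if n = 7 then o2 / 2
  else if n = 11 then r / 2 else if n = 13 then k / 2 else if n = 17 then e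
  else if n = 19 then g1 else if n = 23 then g2 else if n = 29 then g3 else if n = 31 then g4
  else if n = 37 then v.x else if n = 41 then v.y else if n = 43 then v.z
  else if n = 47 then w.xx else if n = 53 then w.xy else if n = 59 then w.xz
  else if n = 61 then w.yy else if n = 67 then w.yz else if n = 71 then w.zz
  else if n = 73 then q.xx else if n = 79 then q.xy else if n = 83 then q.xz
  else if n = 89 then q.yy else if n = 97 then q.yz else if n = 101 then q.zz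
  else if n = 103 then lam else 0

section
variable (w q : Sym ℝ) (v : T ℝ) (lam c s o1 o2 r k g1 g2 g3 g4 e : ℝ)

theorem rho_w : wP.map (Poly.val (rho w q v lam c s o1 o2 r k g1 g2 g3 g4 e)) = w := by
  cases w
  simp only [wP, H902HO.Sym.map, Poly.val_X _ 47 (by norm_num), Poly.val_X _ 53 (by norm_num),
    Poly.val_X _ 59 (by norm_num), Poly.val_X _ 61 (by norm_num), Poly.val_X _ 67 (by norm_num),
    Poly.val_X _ 71 (by norm_num)]
  rfl

theorem rho_q : qP.map (Poly.val (rho w q v lam c s o1 o2 r k g1 g2 g3 g4 e)) = q := by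
  cases q
  simp only [qP, H902HO.Sym.map, Poly.val_X _ 73 (by norm_num), Poly.val_X _ 79 (by norm_num),
    Poly.val_X _ 83 (by norm_num), Poly.val_X _ 89 (by norm_num), Poly.val_X _ 97 (by norm_num),
    Poly.val_X _ 101 (by norm_num)]
  rfl

theorem rho_v : vP.map (Poly.val (rho w q v lam c s o1 o2 r k g1 g2 g3 g4 e)) = v := by
  cases v
  simp only [vP, H902HO.T.map, Poly.val_X _ 37 (by norm_num), Poly.val_X _ 41 (by norm_num),
    Poly.val_X _ 43 (by norm_num)]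
  rfl

theorem rho_one (ρ : ℕ → ℝ) : one3P.map (Poly.val ρ) = one3 := by
  simp only [one3P, H902HO.Sym.map, Poly.val_C, Poly.val_O, one3, Int.cast_one]

/-- the symbolic series represents `ser` -/
theorem ser_eq (h : c ^ 2 + s ^ 2 = 1) (w' : Sym Poly) (l : Poly) (lam' : ℝ)
    (hl : l.val (rho w q v lam c s o1 o2 r k g1 g2 g3 g4 e) = lam' * e ^ 2) :
    sv (rho w q v lam c s o1 o2 r k g1 g2 g3 g4 e) (serP w' qP vP l) =
      ser (w'.map (Poly.val (rho w q v lam c s o1 o2 r k g1 g2 g3 g4 e))) q v lam' c s o1 o2 r k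
        g1 g2 g3 g4 e := by
  have h' : rho w q v lam c s o1 o2 r k g1 g2 g3 g4 e 3 ^ 2
      + rho w q v lam c s o1 o2 r k g1 g2 g3 g4 e 2 ^ 2 = 1 := h
  rw [sv_serP _ h' w' qP vP l lam' hl, rho_q, rho_v]
  have e1 : 2 * rho w q v lam c s o1 o2 r k g1 g2 g3 g4 e 5 = o1 := by
    show 2 * (o1 / 2) = o1
    ring
  have e2 : 2 * rho w q v lam c s o1 o2 r k g1 g2 g3 g4 e 7 = o2 := by
    show 2 * (o2 / 2) = o2
    ring
  have e3 : 2 * rho w q v lam c s o1 o2 r k g1 g2 g3 g4 e 11 = r := by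
    show 2 * (r / 2) = r
    ring
  have e4 : 2 * rho w q v lam c s o1 o2 r k g1 g2 g3 g4 e 13 = k := by
    show 2 * (k / 2) = k
    ring
  rw [e1, e2, e3, e4]
  rfl

end

end H619HO
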